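import Pool.Agent.H76.AB.Stm

set_option autoImplicit false

namespace H76.AB

open SimpleGraph Function

theorem t_CORE (hSEQ : S_SEQ) (hEX : S_EX) (hRAM : S_RAM) (hCOL : S_COL) (hTFREE : S_TFREE) : S_CORE := by
  intro W _ T q k hT hs hq
  obtain ⟨s, hs0, hs1, hs2, hs3, hs4, hs5⟩ := hSEQ W T hT hs
  obtain ⟨N₀, hN₀⟩ := hRAM W T q s hT hq hs1 hs4 hs5
  obtain ⟨g₀, hg₀⟩ := hCOL q s k (max N₀ 1) hq hs1
  obtain ⟨R, hR⟩ := hEX s.length (fun i => q * s.getD i 0) (max N₀ 1) (max g₀ (Nat.card W)) (le_max_right _ _)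
  have hfin : Finite R.V := hR.fin
  refine ⟨R.V ⊕ R.V × Fin (q * Nat.card W), inferInstance,
    R.G s.length (fun i => q * s.getD i 0) (q * Nat.card W), Set.range Sum.inr, ?_, ?_, ?_⟩
  · rintro v ⟨z, rfl⟩ x y hx hy
    rcases x with x | x
    · rcases y with y | y
      · have h1 : x = z.1 ∧ R.node x = [] := hx
        have h2 : y = z.1 ∧ R.node y = [] := hy
        rw [h1.1, h2.1]
      · exact absurd hy (fun h => h)
    · exact absurd hx (fun h => h)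
  · exact hN₀ _ _ R (le_max_left _ _) (le_max_right _ _) hR
  · intro H hH hcard hRam
    set B : Set R.V := {v | ∃ d y, H.Adj (Sum.inr (v, d)) y} with hB
    have hBk : B.ncard ≤ k := by
      have h1 : B ⊆ (fun a : R.V ⊕ R.V × Fin (q * Nat.card W) => Sum.elim id Prod.fst a) ''
          {v | v ∈ Set.range Sum.inr ∧ ∃ x, H.Adj v x} := by
        rintro v ⟨d, y, h⟩
        exact ⟨Sum.inr (v, d), ⟨⟨_, rfl⟩, y, h⟩, rfl⟩
      calc B.ncard ≤ _ := Set.ncard_le_ncard h1 (Set.toFinite _)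
        _ ≤ _ := Set.ncard_image_le (Set.toFinite _)
        _ ≤ k := hcard.le
    obtain ⟨col, C, h1, h2, h3, h4⟩ := hg₀ _ R (le_max_left _ _) hR ⟨0, by omega⟩ B hBk
    obtain ⟨c, hc⟩ := hTFREE W T q s _ _ _ R H ⟨0, by omega⟩ B C col hT hs hs0 hs2 hs3 hR hH
      (fun v y h => ⟨v.2, y, h⟩) h1 h2 h3 h4
    exact hc (hRam c)

end H76.AB
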