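import Mathlib

set_option autoImplicit false

/-!
# Crew AB (MP_34e65c_co, FULL ANSWER YES): every tree that is not a star is `s_q`-abundant

Definitions. All parts: prove `theorem t_XXX : S_XXX` (other parts as hypotheses where stated).
-/

namespace H76.AB

open SimpleGraph

/-! ### Ramsey notions -/

/-- the colouring `c` of the pairs has a monochromatic copy of `T` in `G` -/
def Mono {V W : Type} {q : ℕ} (T : SimpleGraph W) (G : SimpleGraph V) (c : Sym2 V → Fin q) : Prop :=
  ∃ j : Fin q, ∃ f : W → V, Function.Injective f ∧ ∀ x y, T.Adj x y → G.Adj (f x) (f y) ∧ c s(f x, f y) = j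

/-- `G` is `q`-Ramsey for `T` -/
def Ramsey {V W : Type} (q : ℕ) (T : SimpleGraph W) (G : SimpleGraph V) : Prop :=
  ∀ c : Sym2 V → Fin q, Mono T G c

/-- `T` is not a star -/
def NotStar {W : Type} (T : SimpleGraph W) : Prop := ¬ ∃ x, ∀ y, y ≠ x → T.Adj x y

/-- the finite graph that the construction gives: `L` consists of vertices of degree at most one, and every
spanning subgraph in which fewer than `k` vertices of `L` have a neighbour is not `q`-Ramsey -/
def Core {W : Type} (q : ℕ) (T : SimpleGraph W) (k : ℕ) : Prop :=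
  ∃ (V : Type) (_ : Finite V) (G : SimpleGraph V) (L : Set V),
    (∀ v ∈ L, ∀ x y, G.Adj v x → G.Adj v y → x = y) ∧ Ramsey q T G ∧
    ∀ H : SimpleGraph V, H ≤ G → {v | v ∈ L ∧ ∃ x, H.Adj v x}.ncard < k → ¬ Ramsey q T H

/-! ### Level assignments of trees -/

/-- `T` can be drawn on the levels `0, ..., s.length`, edges between consecutive levels, a vertex of level `i`
having at most `s_i` neighbours on level `i + 1` -/
def Emb {W : Type} (T : SimpleGraph W) (s : List ℕ) : Prop :=
  ∃ lam : W → ℕ, (∀ x, lam x ≤ s.length) ∧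
    (∀ x y, T.Adj x y → lam x = lam y + 1 ∨ lam y = lam x + 1) ∧
    ∀ x, {y | T.Adj x y ∧ lam y = lam x + 1}.ncard ≤ s.getD (lam x) 0

/-! ### Locally acyclic graphs -/

/-- every nonempty set of at most `g` vertices has a vertex with at most one neighbour in the set -/
def LocF {V : Type} (H : SimpleGraph V) (g : ℕ) : Prop :=
  ∀ S : Finset V, S.Nonempty → S.card ≤ g → ∃ x ∈ S, ∀ y ∈ S, ∀ z ∈ S, H.Adj x y → H.Adj x z → y = z

/-! ### Layered systems -/

/-- raw data of a layered system: `node x` is a list of positions (last step first), its length is the level of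
`x` (at most `m`); `par x p` is the parent of `x` at position `p < w (level x)`, when `level x < m` -/
structure Raw where
  V : Type
  node : V → List ℕ
  par : V → ℕ → V

/-- the level of a vertex -/
def Raw.lev (R : Raw) (x : R.V) : ℕ := (R.node x).length

/-- `y` is the parent of `x` at position `p` -/
def Raw.Up (R : Raw) (m : ℕ) (w : ℕ → ℕ) (x : R.V) (p : ℕ) (y : R.V) : Prop :=
  R.lev x < m ∧ p < w (R.lev x) ∧ R.par x p = y

/-- the graph of all parent edges -/
def Raw.H (R : Raw) (m : ℕ) (w : ℕ → ℕ) : SimpleGraph R.V where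
  Adj x y := x ≠ y ∧ ((∃ p, R.Up m w x p y) ∨ ∃ p, R.Up m w y p x)
  symm := ⟨fun _ _ h => ⟨h.1.symm, h.2.symm⟩⟩
  loopless := ⟨fun _ h => h.1 rfl⟩

/-- The layered systems: every vertex of a node `p :: P` has exactly `N` children at the node `P`; the graph is
locally acyclic. -/
structure Sys (m : ℕ) (w : ℕ → ℕ) (N g : ℕ) (R : Raw) : Prop where
  fin : Finite R.V
  len : ∀ x, R.lev x ≤ m
  hpar : ∀ x p, R.lev x < m → p < w (R.lev x) → R.node (R.par x p) = p :: R.node x
  hval : ∀ x p P, R.node x = p :: P → p < w P.length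
  child : ∀ u p P, R.node u = p :: P → {x | R.node x = P ∧ R.par x p = u}.ncard = N
  ne : ∃ x, R.node x = []
  forest : LocF (R.H m w) g

/-- the graph with `D` pendant vertices at every vertex of level `0` -/
def Raw.G (R : Raw) (m : ℕ) (w : ℕ → ℕ) (D : ℕ) : SimpleGraph (R.V ⊕ R.V × Fin D) where
  Adj a b := match a, b with
    | Sum.inl x, Sum.inl y => (R.H m w).Adj x y
    | Sum.inl x, Sum.inr z => x = z.1 ∧ R.node x = []
    | Sum.inr z, Sum.inl x => x = z.1 ∧ R.node x = []
    | Sum.inr _, Sum.inr _ => False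
  symm := ⟨by
    rintro (x | z) (y | u) h
    · exact SimpleGraph.Adj.symm h
    · exact h
    · exact h
    · exact h⟩
  loopless := ⟨by
    rintro (x | z) h
    · exact SimpleGraph.irrefl _ h
    · exact h⟩

end H76.AB
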