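import Pool.Agent.H76.AB.Stm

set_option autoImplicit false

namespace H76.AB

open SimpleGraph Function

theorem Mono.of_map {V V' W : Type} {q : ℕ} {T : SimpleGraph W} {G : SimpleGraph V} {G' : SimpleGraph V'}
    (g : V → V') (hg : Injective g) (hG : ∀ a b, G.Adj a b → G'.Adj (g a) (g b)) (hR : Ramsey q T G) :
    Ramsey q T G' := by
  intro c
  obtain ⟨j, f, hf, h⟩ := hR (fun e => c (Sym2.map g e))
  exact ⟨j, fun x => g (f x), hg.comp hf, fun x y hxy => ⟨hG _ _ (h x y hxy).1, (h x y hxy).2⟩⟩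

/-- a Ramsey graph has a Ramsey subgraph that is minimal with respect to the edges -/
theorem exists_min {V W : Type} [Finite V] {q : ℕ} {T : SimpleGraph W} (G : SimpleGraph V) (hR : Ramsey q T G) :
    ∃ H : SimpleGraph V, H ≤ G ∧ Ramsey q T H ∧ ∀ H' : SimpleGraph V, H' ≤ H → H' ≠ H → ¬ Ramsey q T H' := by
  have hfin : Finite (SimpleGraph V) := by
    classical
    exact Finite.of_injective (fun G : SimpleGraph V => G.Adj) (fun a b h => SimpleGraph.ext h)
  have hne : {H : SimpleGraph V | H ≤ G ∧ Ramsey q T H}.Nonempty := ⟨G, le_refl _, hR⟩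
  obtain ⟨H, hH⟩ := (Set.toFinite {H : SimpleGraph V | H ≤ G ∧ Ramsey q T H}).exists_minimal hne
  refine ⟨H, hH.1.1, hH.1.2, fun H' h1 h2 h3 => ?_⟩
  have h4 := hH.2 (show H' ∈ {H : SimpleGraph V | H ≤ G ∧ Ramsey q T H} from ⟨h1.trans hH.1.1, h3⟩) h1
  exact h2 (le_antisymm h1 h4)

/-- minimal Ramsey graph: no proper subgraph is Ramsey -/
def MinR {V W : Type} (q : ℕ) (T : SimpleGraph W) (G : SimpleGraph V) : Prop :=
  Ramsey q T G ∧ ∀ S : G.Subgraph, S ≠ ⊤ → ¬ Ramsey q T S.coe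

theorem exists_fin {V W : Type} [Finite V] {q : ℕ} {T : SimpleGraph W} (hT : ∀ x, ∃ y, T.Adj x y) [Nonempty W]
    (hq : 1 ≤ q)
    (H : SimpleGraph V) (hR : Ramsey q T H)
    (hmin : ∀ H' : SimpleGraph V, H' ≤ H → H' ≠ H → ¬ Ramsey q T H') :
    ∃ (N : ℕ) (g : Fin N → V), Injective g ∧ (∀ v, (∃ x, H.Adj v x) ↔ v ∈ Set.range g) ∧
      MinR q T (H.comap g) := by
  classical
  set V' : Set V := {v | ∃ x, H.Adj v x} with hV'
  obtain ⟨N, ⟨e⟩⟩ := Finite.exists_equiv_fin V'
  let g : Fin N → V := fun i => (e.symm i : V)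
  have hg : Injective g := fun i j h => e.symm.injective (Subtype.ext h)
  have hr : ∀ v, (∃ x, H.Adj v x) ↔ v ∈ Set.range g := by
    intro v
    constructor
    · intro h
      exact ⟨e ⟨v, h⟩, by simp [g]⟩
    · rintro ⟨i, rfl⟩
      exact (e.symm i).2
  refine ⟨N, g, hg, hr, ?_, ?_⟩
  · intro c
    -- the set is nonempty
    obtain ⟨j0, f0, -, h0⟩ := hR (fun _ => ⟨0, hq⟩)
    have hN : Nonempty (Fin N) := by
      obtain ⟨x⟩ := ‹Nonempty W›
      obtain ⟨y, hy⟩ := hT x
      obtain ⟨i, -⟩ := (hr (f0 x)).1 ⟨_, (h0 x y hy).1⟩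
      exact ⟨i⟩
    obtain ⟨j, f, hf, h⟩ := hR (fun s => c (Sym2.map (invFun g) s))
    have hfr : ∀ x, f x ∈ Set.range g := by
      intro x
      obtain ⟨y, hy⟩ := hT x
      exact (hr _).1 ⟨_, (h x y hy).1⟩
    choose f' hf' using hfr
    refine ⟨j, f', ?_, ?_⟩
    · intro x y hxy
      apply hf
      rw [← hf' x, ← hf' y, hxy]
    · intro x y hxy
      have h1 := h x y hxy
      rw [← hf' x, ← hf' y] at h1
      refine ⟨h1.1, ?_⟩
      have h2 := h1.2
      simp only [Sym2.map_mk] at h2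
      rw [leftInverse_invFun hg, leftInverse_invFun hg] at h2
      exact h2
  · intro S hS hSR
    let H' : SimpleGraph V :=
      { Adj := fun a b => ∃ i j, g i = a ∧ g j = b ∧ S.Adj i j
        symm := ⟨by
          rintro a b ⟨i, j, h1, h2, h3⟩
          exact ⟨j, i, h2, h1, h3.symm⟩⟩
        loopless := ⟨by
          rintro a ⟨i, j, h1, h2, h3⟩
          have : i = j := hg (h1.trans h2.symm)
          subst this
          exact (SimpleGraph.irrefl _ (S.adj_sub h3))⟩ }
    have hle : H' ≤ H := by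
      rintro a b ⟨i, j, rfl, rfl, h3⟩
      exact S.adj_sub h3
    refine hmin H' hle ?_ ?_
    · intro heq
      apply hS
      have hadj : ∀ i j, (H.comap g).Adj i j → S.Adj i j := by
        intro i j hij
        have h1 : H'.Adj (g i) (g j) := by
          rw [heq]
          exact hij
        obtain ⟨i', j', h2, h3, h4⟩ := h1
        rw [hg h2, hg h3] at h4
        exact h4
      have hverts : ∀ i, i ∈ S.verts := by
        intro i
        obtain ⟨x, hx⟩ := (hr (g i)).2 ⟨i, rfl⟩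
        obtain ⟨k, hk⟩ := (hr x).1 ⟨_, hx.symm⟩
        rw [← hk] at hx
        exact S.edge_vert (hadj i k hx)
      apply le_antisymm le_top
      refine ⟨fun i _ => hverts i, ?_⟩
      intro i j hij
      exact hadj i j hij
    · refine Mono.of_map (G := S.coe) (fun i => g i.1) ?_ ?_ hSR
      · intro i j h
        exact Subtype.ext (hg h)
      · intro a b hab
        exact ⟨a.1, b.1, rfl, rfl, hab⟩

theorem tree_nbr {W : Type} (T : SimpleGraph W) (hT : T.Connected) (hs : NotStar T) : ∀ x, ∃ y, T.Adj x y := by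
  intro x
  by_contra hcon
  push Not at hcon
  apply hs
  refine ⟨x, fun y hy => ?_⟩
  exfalso
  obtain ⟨p⟩ := hT.preconnected x y
  cases p with
  | nil => exact hy rfl
  | cons h _ => exact hcon _ h

open Classical in
/-- from CORE: minimal Ramsey graphs with many vertices of degree one -/
theorem many {W : Type} [Finite W] (T : SimpleGraph W) (q k : ℕ) (hq : 1 ≤ q) (hT : T.IsTree) (hs : NotStar T)
    (hC : Core q T k) :
    ∃ (N : ℕ) (G : SimpleGraph (Fin N)), MinR q T G ∧ k ≤ (Finset.univ.filter (fun v => G.degree v = 1)).card := by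
  obtain ⟨V, hV, G, L, hL, hR, hk⟩ := hC
  obtain ⟨H, hHG, hHR, hHm⟩ := exists_min G hR
  have hne : Nonempty W := hT.1.nonempty
  obtain ⟨N, g, hg, hr, hM⟩ := exists_fin (tree_nbr T hT.1 hs) hq H hHR hHm
  refine ⟨N, H.comap g, hM, ?_⟩
  have h1 : k ≤ {v | v ∈ L ∧ ∃ x, H.Adj v x}.ncard := by
    by_contra hcon
    push Not at hcon
    exact hk H hHG hcon hHR
  refine h1.trans ?_
  have h2 : {v | v ∈ L ∧ ∃ x, H.Adj v x} ⊆ g '' {i | (H.comap g).degree i = 1} := by
    rintro v ⟨hvL, hvx⟩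
    obtain ⟨i, rfl⟩ := (hr v).1 hvx
    refine ⟨i, ?_, rfl⟩
    show (H.comap g).degree i = 1
    rw [SimpleGraph.degree_eq_one_iff_existsUnique_adj]
    obtain ⟨x, hx⟩ := hvx
    obtain ⟨j, hj⟩ := (hr x).1 ⟨_, hx.symm⟩
    rw [← hj] at hx
    refine ⟨j, hx, ?_⟩
    intro j' hj'
    apply hg
    exact hL _ hvL _ _ (hHG hj') (hHG hx)
  calc {v | v ∈ L ∧ ∃ x, H.Adj v x}.ncard ≤ (g '' {i | (H.comap g).degree i = 1}).ncard :=
        Set.ncard_le_ncard h2 (Set.toFinite _)
    _ = {i | (H.comap g).degree i = 1}.ncard := Set.ncard_image_of_injective _ hg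
    _ = (Finset.univ.filter (fun v => (H.comap g).degree v = 1)).card := by
        rw [← Set.ncard_coe_finset]
        congr 1
        ext i
        simp

end H76.AB
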