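import Pool.Agent.H76.AB.Fin

set_option autoImplicit false

namespace H76.AB

open SimpleGraph Function

/-- colourings of the edge set -/
def RamseyE {V W : Type} (q : ℕ) (H : SimpleGraph W) (G : SimpleGraph V) : Prop :=
  ∀ c : G.edgeSet → Fin q, ∃ (j : Fin q) (f : W → V) (_ : Injective f)
    (h : ∀ x y, H.Adj x y → G.Adj (f x) (f y)), ∀ (x y : W) (hxy : H.Adj x y), c ⟨s(f x, f y), h x y hxy⟩ = j

theorem ramseyE_iff {V W : Type} (q : ℕ) (hq : 1 ≤ q) (H : SimpleGraph W) (G : SimpleGraph V) :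
    RamseyE q H G ↔ Ramsey q H G := by
  classical
  constructor
  · intro h c
    obtain ⟨j, f, hf, h1, h2⟩ := h (fun e => c e.1)
    exact ⟨j, f, hf, fun x y hxy => ⟨h1 x y hxy, h2 x y hxy⟩⟩
  · intro h c
    obtain ⟨j, f, hf, h1⟩ := h (fun e => if he : e ∈ G.edgeSet then c ⟨e, he⟩ else ⟨0, hq⟩)
    refine ⟨j, f, hf, fun x y hxy => (h1 x y hxy).1, fun x y hxy => ?_⟩
    have h2 := (h1 x y hxy).2
    simp only [dif_pos (show s(f x, f y) ∈ G.edgeSet from (h1 x y hxy).1)] at h2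
    exact h2

/-- no isolated vertices in minimal Ramsey graphs -/
theorem minR_nbr {V W : Type} {q : ℕ} (hq : 1 ≤ q) [hW : Nonempty W] {T : SimpleGraph W}
    (hT : ∀ x, ∃ y, T.Adj x y) {G : SimpleGraph V}
    (hG : MinR q T G) : ∀ v, ∃ x, G.Adj v x := by
  intro v
  by_contra hcon
  push Not at hcon
  let S : G.Subgraph := (⊤ : G.Subgraph).deleteVerts {v}
  have hS : S ≠ ⊤ := by
    intro h
    have h1 : v ∈ S.verts := by
      rw [h]
      exact Set.mem_univ _
    simp [S] at h1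
  refine hG.2 S hS ?_
  intro c
  classical
  -- extend the colouring
  have hw : ∀ x y, G.Adj x y → x ∈ S.verts ∧ y ∈ S.verts ∧ S.Adj x y := by
    intro x y hxy
    have hx : x ≠ v := by
      rintro rfl
      exact hcon _ hxy
    have hy : y ≠ v := by
      rintro rfl
      exact hcon _ hxy.symm
    refine ⟨by simp [S, hx], by simp [S, hy], ?_⟩
    simp [S, hx, hy, hxy]
  have hne : Nonempty S.verts := by
    obtain ⟨j, f, hf, h⟩ := hG.1 (fun _ => ⟨0, hq⟩)
    obtain ⟨x⟩ := hW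
    obtain ⟨y, hy⟩ := hT x
    exact ⟨⟨f x, (hw _ _ (h x y hy).1).1⟩⟩
  let r : V → S.verts := fun x => if h : x ∈ S.verts then ⟨x, h⟩ else Classical.choice hne
  have hr : ∀ x (h : x ∈ S.verts), r x = ⟨x, h⟩ := fun x h => by simp only [r, dif_pos h]
  obtain ⟨j, f, hf, h⟩ := hG.1 (fun e => c (Sym2.map r e))
  have hfv : ∀ x, f x ∈ S.verts := by
    intro x
    obtain ⟨y, hy⟩ := hT x
    exact (hw _ _ (h x y hy).1).1
  refine ⟨j, fun x => ⟨f x, hfv x⟩, ?_, ?_⟩
  · intro x y hxy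
    exact hf (congrArg Subtype.val hxy)
  · intro x y hxy
    refine ⟨(hw _ _ (h x y hxy).1).2.2, ?_⟩
    have h2 := (h x y hxy).2
    simp only [Sym2.map_mk] at h2
    rw [hr _ (hfv x), hr _ (hfv y)] at h2
    exact h2

end H76.AB
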