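import Pool.Agent.H76.AB.Defs

set_option autoImplicit false

/-!
# Crew AB: the statements, with proofs

Level of a vertex = length of its node. `s` is a list (bottom first), `w i = q * s.getD i 0`, `m = s.length`.
-/

namespace H76.AB

open SimpleGraph

/-- SEQ1. Monotonicity, two levels, long lists of ones, and the list `[1]`.
(1) `Emb T s`, `s.length = t.length`, `s` pointwise at most `t` gives `Emb T t` (same `lam`).
(2) `T` a tree (finite): `Emb T (a :: r)` when `a ≥ card W`: `lam` in `{0, 1}` = parity of the distance from a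
fixed vertex (adjacent vertices of a tree have distances of different parity: `IsTree.dist_ne_of_adj` or
2-colourability of acyclic graphs).
(3) if all distances from some vertex `x` are at most `n` then `Emb T (replicate n 1)`: `lam y = n - dist x y`; the
up-neighbour of `y ≠ x` is unique (tree), that of `x` does not exist.
(4) `Emb T []` or `Emb T [1]` is false when `T` is a tree and not a star: with `[1]` a vertex of level `0` has all
neighbours on level `1` and at most one of them; if some vertex `x` has level `1` its neighbours have level `0`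
hence no other neighbour, so by connectedness every vertex is `x` or adjacent to `x`; if all have level `0`, there is
no edge, one vertex. -/
def S_SEQ1 : Prop :=
  ∀ (W : Type) [Finite W] (T : SimpleGraph W), T.IsTree →
    (∀ s t : List ℕ, s.length = t.length → (∀ i, s.getD i 0 ≤ t.getD i 0) → Emb T s → Emb T t) ∧
    (∀ (a : ℕ) (r : List ℕ), Nat.card W ≤ a → Emb T (a :: r)) ∧
    (∀ (n : ℕ) (x : W), (∀ y, T.dist x y ≤ n) → Emb T (List.replicate n 1)) ∧
    (NotStar T → ¬ Emb T [] ∧ ¬ Emb T [1])

/-- SEQ (uses SEQ1 as hypothesis). The greedy list. Start with `s = []`. If `Emb T (1 :: s)` stop, otherwise let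
`a + 1` be the least number with `Emb T ((a + 1) :: s)` (exists by (2) of SEQ1, `a ≥ 1`), and replace `s` by
`a :: s`. All conditions except `Emb T (1 :: s)` are kept. It stops: all entries are `≥ 1` and `¬ Emb T s`, so by
(1), (3) of SEQ1 `s.length < card W` (distances in `T` are `< card W`). `s ≠ []` as `Emb T [1]` is false. -/
def S_SEQ : Prop :=
  ∀ (W : Type) [Finite W] (T : SimpleGraph W), T.IsTree → NotStar T →
    ∃ s : List ℕ, s ≠ [] ∧ (∀ a ∈ s, 1 ≤ a) ∧ ¬ Emb T s ∧ ¬ Emb T (List.replicate s.length 1) ∧ Emb T (1 :: s) ∧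
      ∀ pre a suf, s = pre ++ a :: suf → Emb T ((a + 1) :: suf)

/-- ORI. A locally acyclic graph has on every small vertex set an orientation with out-degree at most one.
Induction on `S`: remove the vertex `x` with at most one neighbour in `S`, let `ρ x` be this neighbour. -/
def S_ORI : Prop :=
  ∀ (V : Type) (H : SimpleGraph V) (S : Finset V) (g : ℕ), LocF H g → S.card ≤ g →
    ∃ ρ : V → V, ∀ x ∈ S, ∀ y ∈ S, H.Adj x y → ρ x = y ∨ ρ y = x

/-- INJ. A locally injective homomorphism from a connected graph to a locally acyclic graph is injective.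
Let `a ≠ b` with `f a = f b`, take such a pair and a path between them of minimal length. Length `1` is impossible
(`f a`, `f b` adjacent). Otherwise the images of the vertices of the path (without the last one) are distinct by
minimality, at most `card W` many, and each has two different neighbours in this set (local injectivity; for `f a` the
neighbours are the images of the second and of the last but one vertex of the path: they are distinct by minimality
unless the path has length `2`, which is impossible by local injectivity). This contradicts `LocF`. (Alternative: the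
minimal pair in the sense `T.dist a b`.) -/
def S_INJ : Prop :=
  ∀ (V W : Type) [Finite W] (T : SimpleGraph W) (H : SimpleGraph V) (f : W → V), T.Connected →
    LocF H (Nat.card W) → (∀ x y, T.Adj x y → H.Adj (f x) (f y)) →
    (∀ x y z, T.Adj x y → T.Adj x z → f y = f z → y = z) → Function.Injective f

/-- EMB. Embedding a tree level by level. Root `T` at `x0`, add the vertices in the order of increasing distance from
`x0` (induction on root-closed sets `S` of vertices: take `x ∈ S` of maximal distance, its only neighbour in `S` is its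
parent `p`; extend the map of `S \ {x}` by a vertex of `K` adjacent to `f p` on the level `lam x` which is not the
image of another neighbour of `p`: for `lam x = lam p + 1` fewer than `t (lam p)` are used, for
`lam x + 1 = lam p` fewer than `card W`). The first vertex: by `hne`. -/
def S_EMB : Prop :=
  ∀ (V W : Type) [Finite W] (T : SimpleGraph W) (H : SimpleGraph V) (lev : V → ℕ) (K : Set V) (lam : W → ℕ)
    (t : ℕ → ℕ) (r : ℕ), T.IsTree →
    (∀ u ∈ K, 1 ≤ lev u → ∃ F : Finset V, Nat.card W ≤ F.card ∧ ∀ x ∈ F, x ∈ K ∧ H.Adj u x ∧ lev x + 1 = lev u) →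
    (∀ u ∈ K, lev u < r → ∃ F : Finset V, t (lev u) ≤ F.card ∧ ∀ x ∈ F, x ∈ K ∧ H.Adj u x ∧ lev x = lev u + 1) →
    (∀ i ≤ r, ∃ u ∈ K, lev u = i) →
    (∀ x, lam x ≤ r) → (∀ x y, T.Adj x y → lam x = lam y + 1 ∨ lam y = lam x + 1) →
    (∀ x, {y | T.Adj x y ∧ lam y = lam x + 1}.ncard ≤ t (lam x)) →
    ∃ f : W → V, (∀ x, f x ∈ K) ∧ (∀ x y, T.Adj x y → H.Adj (f x) (f y)) ∧
      (∀ x y z, T.Adj x y → T.Adj x z → f y = f z → y = z)

/-- WORD. For one reduced word there is a finite permutation group in which it is not `1`: let `n = L.length`;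
permutations `a e` of `Fin (n + 1)` such that the `i`-th letter maps `i` to `i + 1` (if the letter is `(e, true)` then
`a e i = i + 1`, if it is `(e, false)` then `a e (i + 1) = i`). For fixed `e` these conditions are a partial
injection because the word is reduced; extend it to a permutation (`Equiv.extendSubtype` or so). The
product of the word applied to one end point is the other end point. (Product convention: `List.prod`, so the
LAST letter acts first; number the points accordingly.) -/
def S_WORD : Prop :=
  ∀ (E : Type) (L : List (E × Bool)), L ≠ [] → L.IsChain (fun x y => ¬ (x.1 = y.1 ∧ x.2 ≠ y.2)) →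
    ∃ (n : ℕ) (a : E → Equiv.Perm (Fin n)), (L.map (fun z => if z.2 then a z.1 else (a z.1)⁻¹)).prod ≠ 1

/-- FREE (uses WORD). A finite group in which no reduced word of length at most `g` in the letters of a finite
set `F` is trivial: the product (Pi type) of the groups of WORD over the finitely many reduced words of
length between `1` and `g` with letters in `F`. -/
def S_FREE : Prop :=
  ∀ (E : Type) (F : Set E) (g : ℕ), F.Finite → ∃ (Γ : Type) (_ : Group Γ) (_ : Finite Γ) (a : E → Γ),
    ∀ L : List (E × Bool), L ≠ [] → L.length ≤ g → (∀ z ∈ L, z.1 ∈ F) →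
      L.IsChain (fun x y => ¬ (x.1 = y.1 ∧ x.2 ≠ y.2)) →
      (L.map (fun z => if z.2 then a z.1 else (a z.1)⁻¹)).prod ≠ 1

/-- valid nodes -/
def Valid (m : ℕ) (w : ℕ → ℕ) : List ℕ → Prop
  | [] => True
  | p :: P => P.length < m ∧ p < w P.length ∧ Valid m w P

/-- the conditions on a vertex `(γ, P, X)` of the explicit system -/
def Ok (m : ℕ) (w : ℕ → ℕ) (N : ℕ) (P X : List ℕ) : Prop :=
  Valid m w P ∧ P.length + X.length = m ∧ ∀ n ∈ X, n < N

open Classical in
/-- The explicit system: the vertices are the `(γ, P, X)` with `Ok`, the node is `P`,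
`par (γ, P, X) p = (γ * a (P, X, p), p :: P, X.tail)`. -/
noncomputable def raw (Γ : Type) [Group Γ] (a : List ℕ × List ℕ × ℕ → Γ) (m : ℕ) (w : ℕ → ℕ) (N : ℕ) : Raw where
  V := {z : Γ × List ℕ × List ℕ // Ok m w N z.2.1 z.2.2}
  node x := x.1.2.1
  par x p := if h : Ok m w N (p :: x.1.2.1) x.1.2.2.tail then
    ⟨(x.1.1 * a (x.1.2.1, x.1.2.2, p), p :: x.1.2.1, x.1.2.2.tail), h⟩ else x

/-- EX1. All properties of the explicit system except the local acyclicity, and the finiteness of the alphabet.
Children of `(δ, p :: P, Y)`: `(δ * (a (P, n :: Y, p))⁻¹, P, n :: Y)`, `n < N`. -/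
def S_EX1 : Prop :=
  ∀ (m : ℕ) (w : ℕ → ℕ) (N : ℕ) (Γ : Type) [Group Γ] [Finite Γ] (a : List ℕ × List ℕ × ℕ → Γ), 1 ≤ N →
    {z : List ℕ × List ℕ × ℕ | Ok m w N z.1 z.2.1 ∧ z.1.length < m ∧ z.2.2 < w z.1.length}.Finite ∧
    Finite (raw Γ a m w N).V ∧ (∀ x, (raw Γ a m w N).lev x ≤ m) ∧
    (∀ x p, (raw Γ a m w N).lev x < m → p < w ((raw Γ a m w N).lev x) →
      (raw Γ a m w N).node ((raw Γ a m w N).par x p) = p :: (raw Γ a m w N).node x) ∧
    (∀ x p P, (raw Γ a m w N).node x = p :: P → p < w P.length) ∧
    (∀ u p P, (raw Γ a m w N).node u = p :: P →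
      {x | (raw Γ a m w N).node x = P ∧ (raw Γ a m w N).par x p = u}.ncard = N) ∧
    ∃ x, (raw Γ a m w N).node x = []

/-- EX2. Local acyclicity of the explicit system. If every vertex of a nonempty `S`, `|S| ≤ g`, had two
neighbours in `S`, there would be an infinite walk `x_0, x_1, ...` in `S` with `x_{i+2} ≠ x_i`; two of the first
`|S| + 1` vertices are equal, `x_i = x_j`, `i < j ≤ i + g`. Every step multiplies the group element on the right by
a letter `a (P, X, p)` (going up from `(γ, P, X)`) or by the inverse of it (going down to it); no two consecutive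
letters are inverse (the walk would turn back); the product of the letters from `i` to `j` is `1`: contradiction. -/
def S_EX2 : Prop :=
  ∀ (m : ℕ) (w : ℕ → ℕ) (N g : ℕ) (Γ : Type) [Group Γ] (a : List ℕ × List ℕ × ℕ → Γ),
    (∀ L : List ((List ℕ × List ℕ × ℕ) × Bool), L ≠ [] → L.length ≤ g →
      (∀ z ∈ L, Ok m w N z.1.1 z.1.2.1 ∧ z.1.1.length < m ∧ z.1.2.2 < w z.1.1.length) →
      L.IsChain (fun x y => ¬ (x.1 = y.1 ∧ x.2 ≠ y.2)) →
      (L.map (fun z => if z.2 then a z.1 else (a z.1)⁻¹)).prod ≠ 1) →
    LocF ((raw Γ a m w N).H m w) g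

/-- EX (uses FREE, EX1, EX2). Existence of the layered systems. -/
def S_EX : Prop :=
  ∀ (m : ℕ) (w : ℕ → ℕ) (N g : ℕ), 1 ≤ N → ∃ R : Raw, Sys m w N g R

/-- ANC (counting in a system). For a chain of positions the iterated parent. `anc P x`: for `x` of node `[]` and a
list `P` (last step first), `anc [] x = x`, `anc (p :: P) x = par (anc P x) p`. For valid `P`
(`Valid m w P`: `P.length ≤ m` and every entry `p` in `P = P1 ++ p :: P2` is `< w P2.length`): `node (anc P x) = P`;
the number of `x` of node `[]` with `anc P x = u` is exactly `N ^ P.length` for `u` of node `P`. (Induction on `P`.) -/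
def anc (R : Raw) : List ℕ → R.V → R.V
  | [], x => x
  | p :: P, x => R.par (anc R P x) p

def S_ANC : Prop :=
  ∀ (m : ℕ) (w : ℕ → ℕ) (N g : ℕ) (R : Raw), 1 ≤ N → Sys m w N g R →
    (∀ P, Valid m w P → ∀ x, R.node x = [] → R.node (anc R P x) = P) ∧
    (∀ P, Valid m w P → ∀ u, R.node u = P → {x | R.node x = [] ∧ anc R P x = u}.ncard = N ^ P.length) ∧
    (∀ P, Valid m w P → {x | R.node x = []}.ncard = N ^ P.length * {u | R.node u = P}.ncard) ∧
    (∀ u, Valid m w (R.node u)) ∧ {P | Valid m w P}.Finite

/-- PRUNE (uses ANC). Colour the parent edges (`col x p`) and the vertices of level `0` (`kap x`). The type of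
`x` of node `[]` is the pair of `kap x` and the function `(P, p) ↦ col (anc P x) p` (`P` valid of length
`< m`, `p < w P.length`): finitely many types (number `A`), so some type has at least `n1 / A` elements, `n1` the
number of vertices of node `[]`. For a set `U` of vertices of this type let
`Φ(U) = |U| - M * Σ_{P valid, P ≠ []} N ^ (P.length - 1) * |anc P '' U|`. Initially `Φ > 0` when
`N > A * M * #P` (ANC). Take `U` with `Φ(U) > 0` of minimal size. `K` = union of the `anc P '' U`. If `u` in `K` of
node `p :: P` had fewer than `M` children in `anc P '' U`, remove from `U` all `x` with `anc (p :: P) x = u`: at most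
`M * N ^ P.length` elements (ANC), `|anc (p :: P) '' U|` drops by at least one, so `Φ` does not drop: contradiction
(the smaller set is not empty as `Φ > 0`). -/
def S_PRUNE : Prop :=
  ∀ (m : ℕ) (w : ℕ → ℕ) (q M : ℕ), 1 ≤ q → ∃ N₀ : ℕ, ∀ (N g : ℕ) (R : Raw), N₀ ≤ N → Sys m w N g R →
    ∀ (col : R.V → ℕ → Fin q) (kap : R.V → Fin q),
    ∃ (K : Set R.V) (τ : List ℕ → ℕ → Fin q) (j : Fin q),
      (∃ x ∈ K, R.node x = []) ∧
      (∀ x ∈ K, R.lev x < m → ∀ p < w (R.lev x), R.par x p ∈ K ∧ col x p = τ (R.node x) p) ∧
      (∀ x ∈ K, R.node x = [] → kap x = j) ∧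
      (∀ u ∈ K, ∀ p P, R.node u = p :: P → M ≤ {x | x ∈ K ∧ R.node x = P ∧ R.par x p = u}.ncard)

/-- the number of the positions of colour `i` at the node `P` -/
noncomputable def cnt {q : ℕ} (w : ℕ → ℕ) (τ : List ℕ → ℕ → Fin q) (P : List ℕ) (i : Fin q) : ℕ :=
  {p | p < w P.length ∧ τ P p = i}.ncard

/-- CASE. Balanced or unbalanced, `w i = q * s_i`. Either at every node `P` of length `< m` every colour has
at least `s_{|P|}` positions, or there are a node `P` (`Valid`, `|P| < m`) and a colour `i` with at least
`s_{|P|} + 1` positions at `P` such that at every longer valid node of length `< m` every colour has at least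
`s` positions (choose an unbalanced valid node of maximal length; `Σ_i cnt = w = q * s`, so if no colour has more than
`s` then all have exactly `s`, and if not all have at least `s` then some colour has more). -/
def S_CASE : Prop :=
  ∀ (q : ℕ) (s : List ℕ) (τ : List ℕ → ℕ → Fin q), 1 ≤ q →
    (∀ P, Valid s.length (fun i => q * s.getD i 0) P → P.length < s.length → ∀ i,
        s.getD P.length 0 ≤ cnt (fun i => q * s.getD i 0) τ P i) ∨
    ∃ P i, Valid s.length (fun i => q * s.getD i 0) P ∧ P.length < s.length ∧
      s.getD P.length 0 + 1 ≤ cnt (fun i => q * s.getD i 0) τ P i ∧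
      ∀ Q, Valid s.length (fun i => q * s.getD i 0) Q → P.length < Q.length → Q.length < s.length → ∀ i,
        s.getD Q.length 0 ≤ cnt (fun i => q * s.getD i 0) τ Q i

/-- LFG. The graph with pendants is locally acyclic as well (a set with a pendant vertex: it has at most one
neighbour; otherwise the set lies in `R.V`). -/
def S_LFG : Prop :=
  ∀ (m : ℕ) (w : ℕ → ℕ) (g D : ℕ) (R : Raw), LocF (R.H m w) g → LocF (R.G m w D) g

/-- the hypothesis on `K, τ` that PRUNE gives (with `M = card W`) -/
def Hom {q : ℕ} (R : Raw) (m : ℕ) (w : ℕ → ℕ) (M : ℕ) (col : R.V → ℕ → Fin q) (K : Set R.V)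
    (τ : List ℕ → ℕ → Fin q) : Prop :=
  (∃ x ∈ K, R.node x = []) ∧
  (∀ x ∈ K, R.lev x < m → ∀ p < w (R.lev x), R.par x p ∈ K ∧ col x p = τ (R.node x) p) ∧
  (∀ u ∈ K, ∀ p P, R.node u = p :: P → M ≤ {x | x ∈ K ∧ R.node x = P ∧ R.par x p = u}.ncard)

/-- RAMB (uses EMB, INJ, LFG). Balanced case. `K'` = the set of the `inl x`, `x ∈ K`, whose node is reachable from
`[]` by positions of colour `j` (all suffixes `p :: P` of the node satisfy `τ P p = j`), and the pendants of colour
`j` at the vertices of `K'` of node `[]`; levels: pendants `0`, `inl x` has level `R.lev x + 1`; EMB with the graph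
of the edges of colour `j` of `R.G`, `r = m + 1`, `t 0 = 1`, `t (i + 1) = s_i`, `Emb T (1 :: s)`; then INJ with
LFG. -/
def S_RAMB : Prop :=
  ∀ (W : Type) [Finite W] (T : SimpleGraph W) (q : ℕ) (s : List ℕ) (N g D : ℕ) (R : Raw), T.IsTree →
    (∀ a ∈ s, 1 ≤ a) → Emb T (1 :: s) → Nat.card W ≤ g → Sys s.length (fun i => q * s.getD i 0) N g R →
    ∀ (c : Sym2 (R.V ⊕ R.V × Fin D) → Fin q) (K : Set R.V) (τ : List ℕ → ℕ → Fin q) (j : Fin q),
      Hom R s.length (fun i => q * s.getD i 0) (Nat.card W) (fun x p => c s(Sum.inl x, Sum.inl (R.par x p))) K τ →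
      (∀ x ∈ K, R.node x = [] →
        Nat.card W ≤ {d : Fin D | c s(Sum.inl x, Sum.inr (x, d)) = j}.ncard) →
      (∀ P, Valid s.length (fun i => q * s.getD i 0) P → P.length < s.length →
        s.getD P.length 0 ≤ cnt (fun i => q * s.getD i 0) τ P j) →
      Mono T (R.G s.length (fun i => q * s.getD i 0) D) c

/-- RAMA (uses EMB, INJ, LFG). Unbalanced case: node `P`, colour `i`: `K'` = the `inl x`, `x ∈ K`, with
node `Q ++ P` (`Q` reachable from `P` by colour `i`), level `R.lev x - P.length`, `r = m - P.length`,
`t 0 = s_P + 1`, the other `t` from the rest of the list, `Emb T ((a + 1) :: suf)`, `s = pre ++ a :: suf`,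
`pre.length = P.length`. Then INJ with LFG. Nonempty levels: go up from a vertex of node `[]` of `K`. -/
def S_RAMA : Prop :=
  ∀ (W : Type) [Finite W] (T : SimpleGraph W) (q : ℕ) (s : List ℕ) (N g D : ℕ) (R : Raw), T.IsTree →
    (∀ a ∈ s, 1 ≤ a) → (∀ pre a suf, s = pre ++ a :: suf → Emb T ((a + 1) :: suf)) → Nat.card W ≤ g →
    Sys s.length (fun i => q * s.getD i 0) N g R →
    ∀ (c : Sym2 (R.V ⊕ R.V × Fin D) → Fin q) (K : Set R.V) (τ : List ℕ → ℕ → Fin q) (P : List ℕ) (i : Fin q),
      Hom R s.length (fun i => q * s.getD i 0) (Nat.card W) (fun x p => c s(Sum.inl x, Sum.inl (R.par x p))) K τ →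
      Valid s.length (fun i => q * s.getD i 0) P → P.length < s.length →
      s.getD P.length 0 + 1 ≤ cnt (fun i => q * s.getD i 0) τ P i →
      (∀ Q, Valid s.length (fun i => q * s.getD i 0) Q → P.length < Q.length → Q.length < s.length →
        s.getD Q.length 0 ≤ cnt (fun i => q * s.getD i 0) τ Q i) →
      Mono T (R.G s.length (fun i => q * s.getD i 0) D) c

/-- RAM (uses PRUNE, CASE, RAMA, RAMB). The system with `D = q * card W` pendants is `q`-Ramsey for `T`.
Given a colouring `c`: `col x p = c s(inl x, inl (par x p))`; for `x` of level `0` some colour `kap x` occurs on at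
least `card W` of the `D` pendants. PRUNE with `M = card W` gives `K, τ, j`; CASE; RAMB or RAMA. -/
def S_RAM : Prop :=
  ∀ (W : Type) [Finite W] (T : SimpleGraph W) (q : ℕ) (s : List ℕ), T.IsTree → 2 ≤ q → (∀ a ∈ s, 1 ≤ a) →
    Emb T (1 :: s) → (∀ pre a suf, s = pre ++ a :: suf → Emb T ((a + 1) :: suf)) →
    ∃ N₀ : ℕ, ∀ (N g : ℕ) (R : Raw), N₀ ≤ N → Nat.card W ≤ g →
      Sys s.length (fun i => q * s.getD i 0) N g R →
      Ramsey q T (R.G s.length (fun i => q * s.getD i 0) (q * Nat.card W))

/-- COL (uses ORI). A balanced colouring of the parent edges in which the ancestors of `B` in the colour `z` have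
only one child in the colour `z`. Let `A` = `B` and all its ancestors (at most `k * Π(w_i + 1)` vertices), `A2` = `A`
and all vertices with at least two parents in `A` (they are children of `A`, so `|A2| ≤ |A| (1 + N)`); `g₀` = this
bound. ORI gives `ρ` on `A2`. For every `x` of level `i < m` choose a set `P0 x` of exactly `s_i` positions
`p < w_i = q s_i` with: if `x ∈ A2`: `par x p ≠ ρ x` (one forbidden position at most, since the parents at different
positions are different by `hpar`; `q s_i - 1 ≥ s_i`); if `x ∉ A2`: `par x p ∉ A` (at most one forbidden position).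
`col x p = z` exactly for `p ∈ P0 x`, the other `(q-1) s_i` positions get the other colours, each `s_i` times. `C` =
`B` and all `z`-ancestors of `B` (⊆ `A`). If `u ∈ C` has a `z`-child `x` (`par x p = u`, `p ∈ P0 x`), then
`x ∈ A2` (as `u ∈ A`), `ρ x ≠ u`, so `ρ u = x` (`x, u ∈ A2` adjacent): the `z`-child is unique. -/
def S_COL : Prop :=
  ∀ (q : ℕ) (s : List ℕ) (k N : ℕ), 2 ≤ q → (∀ a ∈ s, 1 ≤ a) → ∃ g₀ : ℕ, ∀ (g : ℕ) (R : Raw), g₀ ≤ g →
    Sys s.length (fun i => q * s.getD i 0) N g R → ∀ (z : Fin q) (B : Set R.V), B.ncard ≤ k →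
    ∃ (col : R.V → ℕ → Fin q) (C : Set R.V),
      (∀ x, R.lev x < s.length → ∀ j, {p | p < q * s.getD (R.lev x) 0 ∧ col x p = j}.ncard ≤ s.getD (R.lev x) 0) ∧
      B ⊆ C ∧
      (∀ x ∈ C, ∀ p u, R.Up s.length (fun i => q * s.getD i 0) x p u → col x p = z → u ∈ C) ∧
      (∀ u ∈ C, ∀ x y p p', R.Up s.length (fun i => q * s.getD i 0) x p u →
        R.Up s.length (fun i => q * s.getD i 0) y p' u → col x p = z → col y p' = z → x = y)

/-- TFREE. With a colouring of the kind of COL there is no monochromatic `T` when only the vertices of `B` keep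
pendants. Colour a parent edge by `col`, a pendant edge by `z`. A copy without pendants: `lam x = R.lev (f x)`
gives `Emb T s` (`s.length = m`): contradiction. A copy with a pendant `inr (v, d)` (colour `z`, `v ∈ B ⊆ C`,
`R.node v = []`): it contains `inl v = f x` (`T` is connected with an edge). Every vertex of the copy: along the
path of `T` from `x` the first step goes to a pendant (end) or up to a `z`-parent in `C`; from a vertex of `C` reached
from below the path goes on to a `z`-parent in `C` (its only `z`-child is the one it came from; `f` is injective);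
so all distances in `T` from `x` are at most `max m 1 = m`; SEQ1 (3) gives `Emb T (replicate m 1)`: contradiction.
(Uses SEQ1.) -/
def S_TFREE : Prop :=
  ∀ (W : Type) [Finite W] (T : SimpleGraph W) (q : ℕ) (s : List ℕ) (N g D : ℕ) (R : Raw)
    (H : SimpleGraph (R.V ⊕ R.V × Fin D)) (z : Fin q) (B C : Set R.V) (col : R.V → ℕ → Fin q),
    T.IsTree → NotStar T → s ≠ [] → ¬ Emb T s → ¬ Emb T (List.replicate s.length 1) →
    Sys s.length (fun i => q * s.getD i 0) N g R →
    H ≤ R.G s.length (fun i => q * s.getD i 0) D → (∀ v y, H.Adj (Sum.inr v) y → v.1 ∈ B) →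
    (∀ x, R.lev x < s.length → ∀ j, {p | p < q * s.getD (R.lev x) 0 ∧ col x p = j}.ncard ≤ s.getD (R.lev x) 0) →
    B ⊆ C →
    (∀ x ∈ C, ∀ p u, R.Up s.length (fun i => q * s.getD i 0) x p u → col x p = z → u ∈ C) →
    (∀ u ∈ C, ∀ x y p p', R.Up s.length (fun i => q * s.getD i 0) x p u →
        R.Up s.length (fun i => q * s.getD i 0) y p' u → col x p = z → col y p' = z → x = y) →
    ∃ c : Sym2 (R.V ⊕ R.V × Fin D) → Fin q, ¬ Mono T H c

/-- CORE (uses SEQ, EX, RAM, COL, TFREE). -/
def S_CORE : Prop :=
  ∀ (W : Type) [Finite W] (T : SimpleGraph W) (q k : ℕ), T.IsTree → NotStar T → 2 ≤ q → Core q T k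

end H76.AB
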